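import Pool.Agent.H.MP_07d438_ag.A

set_option autoImplicit false

namespace Pool.Agent.Lech

open MvPolynomial Pool.Agent.PdFun

variable {k : Type} [Field k]

/-- The ring. -/
abbrev SS (k : Type) [Field k] := MvPolynomial (Fin 4) k

/-- The weight map. -/
noncomputable def τ : SS k →+* Polynomial (SS k) :=
  eval₂Hom (Polynomial.C.comp C) fun i => Polynomial.X ^ (![2, 1, 0, 0] i) * Polynomial.C (X i)

/-- Killing the first two variables. -/
noncomputable def π : SS k →ₐ[k] SS k := aeval ![0, 0, X 2, X 3]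

/-- Killing the third variable. -/
noncomputable def κ : SS k →ₐ[k] SS k := aeval ![X 0, X 1, 0, X 3]

variable (k) in
/-- The weight filtration. -/
noncomputable def W (N : ℕ) : Ideal (SS k) := MI k {m | N ≤ 2 * m 0 + m 1}

/-- Weight homogeneous elements. -/
def Hm (n : ℕ) (f : SS k) : Prop := τ f = Polynomial.X ^ n * Polynomial.C f

lemma Hm.mul {a b : ℕ} {f g : SS k} (h : Hm a f) (h' : Hm b g) : Hm (a + b) (f * g) := by
  rw [Hm, map_mul, h, h', map_mul]; ring

lemma Hm.add {a : ℕ} {f g : SS k} (h : Hm a f) (h' : Hm a g) : Hm a (f + g) := by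
  rw [Hm, map_add, h, h', map_add]; ring

lemma Hm.pow {a : ℕ} {f : SS k} (h : Hm a f) (n : ℕ) : Hm (a * n) (f ^ n) := by
  rw [Hm, map_pow, h, map_pow]; ring

lemma hm_C (c : k) : Hm 0 (C c : SS k) := by simp [Hm, τ]
lemma hm0 : Hm 2 (X 0 : SS k) := by simp [Hm, τ]
lemma hm1 : Hm 1 (X 1 : SS k) := by simp [Hm, τ]
lemma hm2 : Hm 0 (X 2 : SS k) := by simp [Hm, τ]
lemma hm3 : Hm 0 (X 3 : SS k) := by simp [Hm, τ]

lemma hm_mono (m : Fin 4 →₀ ℕ) (c : k) : Hm (2 * m 0 + m 1) (monomial m c) := by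
  rw [monomial_eq, Finsupp.prod_fintype _ _ (by simp), Fin.prod_univ_four]
  have := (hm_C c).mul ((((hm0.pow (m 0)).mul (hm1.pow (m 1))).mul (hm2.pow (m 2))).mul
    (hm3.pow (m 3)))
  simpa using this

lemma coeff_τ (f : SS k) (m : Fin 4 →₀ ℕ) :
    coeff m ((τ f).coeff (2 * m 0 + m 1)) = coeff m f := by
  classical
  induction f using MvPolynomial.induction_on' with
  | monomial u a =>
    rw [hm_mono u a, mul_comm (Polynomial.X ^ _), Polynomial.coeff_C_mul_X_pow]
    split_ifs with h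
    · rfl
    · rw [coeff_monomial, if_neg (by rintro rfl; exact h rfl), coeff_zero]
  | add p q hp hq => simp only [map_add, Polynomial.coeff_add, coeff_add, hp, hq]

lemma W_up (N : ℕ) : ∀ m ∈ {m : Fin 4 →₀ ℕ | N ≤ 2 * m 0 + m 1}, ∀ m',
    m + m' ∈ {m : Fin 4 →₀ ℕ | N ≤ 2 * m 0 + m 1} := by
  intro m hm m'
  simp only [Set.mem_ofPred_eq, Finsupp.add_apply] at hm ⊢
  omega

lemma mem_W {N : ℕ} {f : SS k} : f ∈ W k N ↔ Polynomial.X ^ N ∣ τ f := by
  constructor
  · intro h
    refine Ideal.mem_span_singleton.1 ((show W k N ≤ (Ideal.span {Polynomial.X ^ N}).comap τ from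
      Ideal.span_le.2 ?_) h)
    rintro _ ⟨m, hm, rfl⟩
    refine Ideal.mem_span_singleton.2 ?_
    rw [hm_mono m 1]
    exact (pow_dvd_pow _ hm).mul_right _
  · intro h
    refine (mem_MI (W_up N)).2 fun m hm => ?_
    by_contra h1
    refine mem_support_iff.1 hm ?_
    rw [← coeff_τ, Polynomial.X_pow_dvd_iff.1 h _ (not_le.1 h1), coeff_zero]

lemma Hm.mem {a : ℕ} {f : SS k} (h : Hm a f) : f ∈ W k a := mem_W.2 ⟨_, h⟩

lemma W_mul {a b n : ℕ} {f g : SS k} (h : f ∈ W k a) (h' : g ∈ W k b) (hn : n ≤ a + b) :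
    f * g ∈ W k n := by
  rw [mem_W] at *
  rw [map_mul]
  exact (pow_dvd_pow _ hn).trans (pow_add (Polynomial.X : Polynomial (SS k)) a b ▸
    mul_dvd_mul h h')

lemma W_split (a b : ℕ) : W k (2 * a) * W k b = W k (2 * a + b) := by
  refine MI_mul fun m => ⟨fun h => ?_, ?_⟩
  · simp only [Set.mem_ofPred_eq] at h ⊢
    refine ⟨ex 0 1 (min (m 0) a) (2 * (a - m 0)), by
      rw [ex_x (by decide), ex_y (by decide)]; omega,
      m - ex 0 1 (min (m 0) a) (2 * (a - m 0)), ?_,
      add_tsub_cancel_of_le (ex_le (by decide) (by omega) (by omega))⟩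
    rw [Finsupp.tsub_apply, Finsupp.tsub_apply, ex_x (by decide), ex_y (by decide)]
    omega
  · rintro ⟨u, hu, v, hv, rfl⟩
    simp only [Set.mem_ofPred_eq, Finsupp.add_apply] at *
    omega

lemma W_step {N : ℕ} {f : SS k} (h : f ∈ W k (N + 2)) :
    ∃ a ∈ W k N, ∃ b, f = X 0 * a + X 1 ^ (N + 2) * b := by
  induction h using Submodule.span_induction with
  | mem f hf =>
    obtain ⟨m, hm, rfl⟩ := hf
    simp only [Set.mem_ofPred_eq] at hm
    by_cases h : m 0 = 0
    · refine ⟨0, zero_mem _, monomial (m - Finsupp.single 1 (N + 2)) 1, ?_⟩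
      rw [X_pow_eq_monomial, monomial_mul, add_tsub_cancel_of_le
        (Finsupp.single_le_iff.2 (by omega))]
      simp
    · refine ⟨monomial (m - Finsupp.single 0 1) 1, mono_mem_MI ?_, 0, ?_⟩
      · simp only [Set.mem_ofPred_eq, Finsupp.tsub_apply]
        simp
        omega
      · rw [X, monomial_mul, add_tsub_cancel_of_le (Finsupp.single_le_iff.2 (by omega))]
        simp
  | zero => exact ⟨0, zero_mem _, 0, by simp⟩
  | add f g _ _ h1 h2 =>
    obtain ⟨a, ha, b, rfl⟩ := h1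
    obtain ⟨a', ha', b', rfl⟩ := h2
    exact ⟨a + a', add_mem ha ha', b + b', by ring⟩
  | smul c f _ h1 =>
    obtain ⟨a, ha, b, rfl⟩ := h1
    exact ⟨c * a, Ideal.mul_mem_left _ _ ha, c * b, by simp only [smul_eq_mul]; ring⟩

lemma coeff0 (f : SS k) : (τ f).coeff 0 = π f := by
  have : (Polynomial.constantCoeff.comp τ : SS k →+* SS k) = (π : SS k →ₐ[k] SS k) := by
    refine ringHom_ext (fun a => by simp [τ, π]) fun i => ?_
    fin_cases i <;> simp [τ, π]
  exact congrArg (fun φ : SS k →+* SS k => φ f) this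

lemma hm_π (f : SS k) : Hm 0 (π f) := by
  induction f using MvPolynomial.induction_on with
  | C a => simpa [π] using hm_C a
  | add p q hp hq => rw [map_add]; exact hp.add hq
  | mul_X p i hp =>
    rw [map_mul]
    refine hp.mul (b := 0) ?_
    fin_cases i <;> simp [π, Hm, τ]

lemma mem_W1 {f : SS k} : f ∈ W k 1 ↔ π f = 0 := by
  rw [mem_W, pow_one, Polynomial.X_dvd_iff, coeff0]

lemma ππ (f : SS k) : π (π f) = π f := by
  rw [← coeff0, hm_π f]; simp

lemma sub_π (f : SS k) : f - π f ∈ W k 1 := by rw [mem_W1, map_sub, ππ, sub_self]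

lemma W_sat {N : ℕ} {s f : SS k} (hs : π s ≠ 0) (h : s * f ∈ W k N) : f ∈ W k N := by
  rw [mem_W] at *
  rw [map_mul] at h
  exact Polynomial.prime_X.pow_dvd_of_dvd_mul_left N
    (by rwa [Polynomial.X_dvd_iff, coeff0]) h

lemma W_κ {N : ℕ} {f : SS k} (h : f ∈ W k N) : κ f ∈ W k N := by
  have : τ.comp (κ (k := k)).toRingHom =
      (Polynomial.mapRingHom (κ (k := k)).toRingHom).comp τ := by
    refine ringHom_ext (fun a => by simp [τ, κ]) fun i => ?_
    fin_cases i <;> simp [τ, κ]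
  have h2 : τ (κ f) = Polynomial.mapRingHom (κ (k := k)).toRingHom (τ f) :=
    congrArg (fun φ : SS k →+* Polynomial (SS k) => φ f) this
  rw [mem_W] at *
  have h3 := map_dvd (Polynomial.mapRingHom (κ (k := k)).toRingHom) h
  rw [h2]
  simpa using h3

lemma sub_κ (f : SS k) : X 2 ∣ f - κ f := by
  induction f using MvPolynomial.induction_on with
  | C a => simp [κ]
  | add p q hp hq => convert dvd_add hp hq using 1; rw [map_add]; ring
  | mul_X p i hp =>
    have : (X 2 : SS k) ∣ X i - κ (X i) := by fin_cases i <;> simp [κ]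
    convert dvd_add (hp.mul_right (X i)) (this.mul_left (κ p)) using 1
    rw [map_mul]; ring

lemma red {F F' : SS k} (hF : F = X 1 ^ 8 + X 0 * F') (h' : F' ∈ W k 6) (c : ℕ) : ∀ (N : ℕ)
    (f : SS k), f ∈ W k (N + 2 * c + 8) → ∃ a ∈ W k (N + 2 * c), ∃ b ∈ W k (N + 6),
      f = F * a + X 0 ^ (c + 1) * b := by
  have step : ∀ (N : ℕ) (f : SS k), f ∈ W k (N + 8) → ∃ a ∈ W k N, ∃ b ∈ W k (N + 6),
      f = F * a + X 0 * b := by
    intro N f h
    obtain ⟨a, ha, b, rfl⟩ := W_step (N := N + 6) h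
    have h1 : X 1 ^ N * b ∈ W k N := Ideal.mul_mem_right _ _ (by simpa using (hm1.pow N).mem)
    exact ⟨_, h1, a - X 1 ^ N * b * F', sub_mem ha (W_mul h1 h' le_rfl), by rw [hF]; ring⟩
  induction c with
  | zero => simpa using step
  | succ c ih =>
    intro N f h
    obtain ⟨a, ha, b, hb, rfl⟩ := ih (N + 2) f (by convert h using 2; ring)
    obtain ⟨a', ha', b', hb', rfl⟩ := step N b hb
    exact ⟨a + X 0 ^ (c + 1) * a', add_mem (by convert ha using 2; ring)
      (W_mul (hm0.pow (c + 1)).mem ha' (by omega)), b', hb', by ring⟩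

end Pool.Agent.Lech
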