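import Pool.Agent.H.MP_0d2d15_ag.A

set_option autoImplicit false

namespace Pool.Agent.Lech

open MvPolynomial Pool.Agent.PdFun

section ring
variable {R : Type} [CommRing R]

/-- The interpolation polynomial. -/
def gG (x y a b p q r : R) : R :=
  (y + a * x) * (y + b * x) * (y + (a + b) * x) + p * (y * (y + b * x) * (y + (a + b) * x)) +
    q * (y * (y + a * x) * (y + (a + b) * x)) + r * (y * (y + a * x) * (y + b * x))

/-- The product of the four linear forms. -/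
def gF (x y a b : R) : R := y * (y + a * x) * (y + b * x) * (y + (a + b) * x)

/-- The correction term. -/
def gH (x y a b p q r p' q' r' : R) : R :=
  (y ^ 2 + (a ^ 2 + a * b + b ^ 2) * x ^ 2) +
  p * p' * ((y + a * x) ^ 2 + (a ^ 2 + a * b + b ^ 2) * x ^ 2) +
  q * q' * ((y + b * x) ^ 2 + (a ^ 2 + a * b + b ^ 2) * x ^ 2) +
  r * r' * ((y + (a + b) * x) ^ 2 + (a ^ 2 + a * b + b ^ 2) * x ^ 2) +
  (p + p') * ((y + b * x) * (y + (a + b) * x)) + (q + q') * ((y + a * x) * (y + (a + b) * x)) +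
  (r + r') * ((y + a * x) * (y + b * x)) + (p * q' + q * p') * (y * (y + (a + b) * x)) +
  (p * r' + r * p') * (y * (y + b * x)) + (q * r' + r * q') * (y * (y + a * x))

variable (h2 : (2 : R) = 0)
include h2

lemma GG (x y a b p q r p' q' r' : R) : gG x y a b p q r * gG x y a b p' q' r' =
    a * b * (a + b) * x ^ 3 * gG x y a b (p * p') (q * q') (r * r') +
      gF x y a b * gH x y a b p q r p' q' r' := by
  have i0 : (y + a * x) * (y + b * x) * (y + (a + b) * x) = a * b * (a + b) * x ^ 3 +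
      y * (y ^ 2 + (a ^ 2 + a * b + b ^ 2) * x ^ 2) := by
    linear_combination (a * b * x ^ 2 * y + a * x * y ^ 2 + b * x * y ^ 2) * h2
  have i1 : y * (y + b * x) * (y + (a + b) * x) = a * b * (a + b) * x ^ 3 +
      (y + a * x) * ((y + a * x) ^ 2 + (a ^ 2 + a * b + b ^ 2) * x ^ 2) := by
    linear_combination (-a * b ^ 2 * x ^ 3 - a * x * y ^ 2 - a ^ 2 * b * x ^ 3 -
      2 * a ^ 2 * x ^ 2 * y - a ^ 3 * x ^ 3 + b * x * y ^ 2) * h2
  have i2 : y * (y + a * x) * (y + (a + b) * x) = a * b * (a + b) * x ^ 3 +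
      (y + b * x) * ((y + b * x) ^ 2 + (a ^ 2 + a * b + b ^ 2) * x ^ 2) := by
    linear_combination (-a * b ^ 2 * x ^ 3 + a * x * y ^ 2 - a ^ 2 * b * x ^ 3 - b * x * y ^ 2 -
      2 * b ^ 2 * x ^ 2 * y - b ^ 3 * x ^ 3) * h2
  have i3 : y * (y + a * x) * (y + b * x) = a * b * (a + b) * x ^ 3 +
      (y + (a + b) * x) * ((y + (a + b) * x) ^ 2 + (a ^ 2 + a * b + b ^ 2) * x ^ 2) := by
    linear_combination (-3 * a * b * x ^ 2 * y - 3 * a * b ^ 2 * x ^ 3 - a * x * y ^ 2 -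
      3 * a ^ 2 * b * x ^ 3 - 2 * a ^ 2 * x ^ 2 * y - a ^ 3 * x ^ 3 - b * x * y ^ 2 -
      2 * b ^ 2 * x ^ 2 * y - b ^ 3 * x ^ 3) * h2
  unfold gG gF gH
  generalize a ^ 2 + a * b + b ^ 2 = c at *
  generalize a * b * (a + b) * x ^ 3 = d at *
  generalize y + (a + b) * x = l3 at *
  generalize y + a * x = l1 at *
  generalize y + b * x = l2 at *
  linear_combination (l1 * l2 * l3) * i0 + p * p' * (y * l2 * l3) * i1 +
    q * q' * (y * l1 * l3) * i2 + r * r' * (y * l1 * l2) * i3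

lemma G1 (x y a b : R) : gG x y a b 1 1 1 = a * b * (a + b) * x ^ 3 := by
  unfold gG
  linear_combination (3 * a * b * x ^ 2 * y + 3 * a * x * y ^ 2 + a ^ 2 * x ^ 2 * y +
    3 * b * x * y ^ 2 + b ^ 2 * x ^ 2 * y + 2 * y ^ 3) * h2

lemma ev1 (a b p q r : R) : gG 1 (a ^ 2) (a ^ 2) b p q r = p * gG 1 (0 ^ 2) (a ^ 2) b p q r := by
  unfold gG
  generalize a ^ 2 = a
  linear_combination (a * b ^ 2 + 3 * a ^ 2 * b + a ^ 2 * b * p + a ^ 2 * b * q + a ^ 2 * b * r +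
    2 * a ^ 3 + a ^ 3 * p + 2 * a ^ 3 * q + a ^ 3 * r) * h2

lemma ev2 (a b p q r : R) : gG 1 (b ^ 2) a (b ^ 2) p q r = q * gG 1 (0 ^ 2) a (b ^ 2) p q r := by
  unfold gG
  generalize b ^ 2 = b
  linear_combination (3 * a * b ^ 2 + a * b ^ 2 * p + a * b ^ 2 * q + a * b ^ 2 * r + a ^ 2 * b +
    2 * b ^ 3 + 2 * b ^ 3 * p + b ^ 3 * q + b ^ 3 * r) * h2

lemma sq2 (a b : R) : (a + b) ^ 2 = a ^ 2 + b ^ 2 := by linear_combination a * b * h2

lemma ev3 (a b p q r : R) : gG 1 ((a + b) ^ 2) (a ^ 2) (b ^ 2) p q r =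
    r * gG 1 (0 ^ 2) (a ^ 2) (b ^ 2) p q r := by
  rw [sq2 h2]
  unfold gG
  generalize a ^ 2 = a
  generalize b ^ 2 = b
  linear_combination (7 * a * b ^ 2 + 5 * a * b ^ 2 * p + 4 * a * b ^ 2 * q + 3 * a * b ^ 2 * r +
    7 * a ^ 2 * b + 4 * a ^ 2 * b * p + 5 * a ^ 2 * b * q + 3 * a ^ 2 * b * r + 2 * a ^ 3 +
    a ^ 3 * p + 2 * a ^ 3 * q + a ^ 3 * r + 2 * b ^ 3 + 2 * b ^ 3 * p + b ^ 3 * q + b ^ 3 * r) * h2

end ring

variable {k : Type} [Field k]

/-- The interpolation polynomial in the ring. -/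
noncomputable def G (p q r : k) : SS k := gG (X 0) (X 1 ^ 2) (X 2) (X 3) (C p) (C q) (C r)
/-- The conductor polynomial. -/
noncomputable def F : SS k := gF (X 0) (X 1 ^ 2) (X 2) (X 3)
/-- The discriminant root. -/
noncomputable def Δ : SS k := X 2 * X 3 * (X 2 + X 3)

lemma τ0 : τ (X 0 : SS k) = Polynomial.X ^ 2 * Polynomial.C (X 0) := hm0
lemma τ1 : τ (X 1 : SS k) = Polynomial.X ^ 1 * Polynomial.C (X 1) := hm1
lemma τ2 : τ (X 2 : SS k) = Polynomial.X ^ 0 * Polynomial.C (X 2) := hm2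
lemma τ3 : τ (X 3 : SS k) = Polynomial.X ^ 0 * Polynomial.C (X 3) := hm3
lemma τC (c : k) : τ (C c : SS k) = Polynomial.X ^ 0 * Polynomial.C (C c) := hm_C c

lemma hm_G (p q r : k) : Hm 6 (G p q r) := by
  simp only [Hm, G, gG, map_add, map_mul, map_pow, τ0, τ1, τ2, τ3, τC]; ring

lemma hm_F : Hm 8 (F : SS k) := by
  simp only [Hm, F, gF, map_add, map_mul, map_pow, τ0, τ1, τ2, τ3]; ring

lemma hm_H (p q r p' q' r' : k) : Hm 4 (gH (X 0) (X 1 ^ 2) (X 2) (X 3) (C p) (C q) (C r) (C p')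
    (C q') (C r') : SS k) := by
  simp only [Hm, gH, map_add, map_mul, map_pow, τ0, τ1, τ2, τ3, τC]; ring

lemma redF (c N : ℕ) (f : SS k) (h : f ∈ W k (N + 2 * c + 8)) :
    ∃ a ∈ W k (N + 2 * c), ∃ b ∈ W k (N + 6), f = F * a + X 0 ^ (c + 1) * b := by
  refine red (F' := 2 * (X 2 + X 3) * X 1 ^ 6 + (X 2 * X 3 + (X 2 + X 3) ^ 2) * X 0 * X 1 ^ 4 +
    X 2 * X 3 * (X 2 + X 3) * X 0 ^ 2 * X 1 ^ 2) (by unfold F gF; ring) (Hm.mem ?_) c N f h
  simp only [Hm, map_add, map_mul, map_pow, map_ofNat, τ0, τ1, τ2, τ3]; ring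

/-- The ideal. -/
noncomputable def Q (p q r : k) : Ideal (SS k) :=
  Ideal.span {G p q r * X 0 ^ 7} ⊔ Ideal.span {F} * W k 12 ⊔ W k 21

/-- Saturation. -/
def sat (I : Ideal (SS k)) : Ideal (SS k) where
  carrier := {f | ∃ s, π s ≠ 0 ∧ s * f ∈ I}
  zero_mem' := ⟨1, by simp, by simp⟩
  add_mem' := by
    rintro f g ⟨s, hs, h⟩ ⟨s', hs', h'⟩
    refine ⟨s * s', by simpa using ⟨hs, hs'⟩, ?_⟩
    convert add_mem (I.mul_mem_left s' h) (I.mul_mem_left s h') using 1; ring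
  smul_mem' := by
    rintro c f ⟨s, hs, h⟩
    refine ⟨s, hs, ?_⟩
    convert I.mul_mem_left c h using 1; simp only [smul_eq_mul]; ring

lemma le_sat {I : Ideal (SS k)} {f : SS k} (h : f ∈ I) : f ∈ sat I := ⟨1, by simp, by simpa⟩

lemma sat_sat {I : Ideal (SS k)} {s f : SS k} (hs : π s ≠ 0) (h : s * f ∈ sat I) : f ∈ sat I := by
  obtain ⟨s', hs', h⟩ := h
  exact ⟨s' * s, by simpa using ⟨hs', hs⟩, by rwa [mul_assoc]⟩

lemma sat_mul {I J : Ideal (SS k)} : I * sat J ≤ sat (I * J) := by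
  refine Ideal.mul_le.2 fun f hf g ⟨s, hs, h⟩ => ⟨s, hs, ?_⟩
  rw [mul_left_comm]
  exact Ideal.mul_mem_mul hf h

lemma πΔ : π (Δ : SS k) ≠ 0 := by
  have : (X 2 + X 3 : SS k) ≠ 0 := fun h => by
    simpa using congrArg (eval ![0, 0, 1, 0]) h
  simp [Δ, π, this]

variable [CharP k 2] {p q r : k}

lemma two : (2 : SS k) = 0 := CharTwo.two_eq_zero

lemma GmG (p q r p' q' r' : k) : ∃ H ∈ W k 4, G p q r * G p' q' r' =
    Δ * X 0 ^ 3 * G (p * p') (q * q') (r * r') + F * H :=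
  ⟨_, (hm_H p q r p' q' r').mem, by simp only [G, F, Δ, map_mul]; exact GG two ..⟩

omit [CharP k 2] in
lemma FW {n : ℕ} {f : SS k} (h : f ∈ W k (12 + n)) : F * f ∈ Q p q r * W k n := by
  rw [← W_split 6 n] at h
  have : F * f ∈ Ideal.span {(F : SS k)} * W k 12 * W k n := by
    rw [mul_assoc]
    exact Ideal.mul_mem_mul (Ideal.mem_span_singleton_self _) h
  exact Ideal.mul_mono_left (le_sup_right.trans le_sup_left) this

lemma key (hp : p ≠ 0) (hq : q ≠ 0) (hr : r ≠ 0) {N : ℕ} {f : SS k} (h : f ∈ W k (N + 32)) :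
    Δ ^ 2 * f ∈ Q p q r * W k (N + 12) := by
  obtain ⟨a, ha, b, hb, rfl⟩ := redF 12 N f h
  obtain ⟨H, hH, e⟩ := GmG p q r p⁻¹ q⁻¹ r⁻¹
  rw [mul_inv_cancel₀ hp, mul_inv_cancel₀ hq, mul_inv_cancel₀ hr] at e
  have e1 : G (1 : k) 1 1 = Δ * X 0 ^ 3 := G1 two ..
  have h1 : G p q r * X 0 ^ 7 * (G p⁻¹ q⁻¹ r⁻¹ * b) ∈ Q p q r * W k (N + 12) :=
    Ideal.mul_mem_mul (Submodule.mem_sup_left (Submodule.mem_sup_left
      (Ideal.mem_span_singleton_self _))) (W_mul (hm_G ..).mem hb (by omega))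
  have h2 : F * (Δ ^ 2 * a - X 0 ^ 7 * H * b) ∈ Q p q r * W k (N + 12) :=
    FW (sub_mem (Ideal.mul_mem_left _ _ (by convert ha using 2; ring))
      (W_mul (W_mul (hm0.pow 7).mem hH le_rfl) hb (by omega)))
  convert add_mem h1 h2 using 1
  rw [e1] at e
  linear_combination (-X 0 ^ 7 * b) * e

lemma lower (hp : p ≠ 0) (hq : q ≠ 0) (hr : r ≠ 0) (s : ℕ) :
    W k (20 * s + 21) ≤ sat (Q p q r ^ (s + 1)) ∧
    (∀ f ∈ W k (20 * s + 12), F * f ∈ sat (Q p q r ^ (s + 1))) ∧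
    G (p ^ (s + 1)) (q ^ (s + 1)) (r ^ (s + 1)) * X 0 ^ (10 * s + 7) ∈ sat (Q p q r ^ (s + 1)) := by
  induction s with
  | zero =>
    simp only [zero_add, pow_one, mul_zero]
    exact ⟨fun f hf => le_sat (Submodule.mem_sup_right hf), fun f hf => le_sat
      (Submodule.mem_sup_left (Submodule.mem_sup_right (Ideal.mul_mem_mul
        (Ideal.mem_span_singleton_self _) hf))), le_sat (Submodule.mem_sup_left
          (Submodule.mem_sup_left (Ideal.mem_span_singleton_self _)))⟩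
  | succ s ih =>
    obtain ⟨h1, h2, h3⟩ := ih
    have d2 : π ((Δ : SS k) ^ 2) ≠ 0 := by simpa using πΔ
    rw [pow_succ' (Q p q r) (s + 1)]
    have a2 : ∀ f ∈ W k (20 * (s + 1) + 12), F * f ∈ sat (Q p q r * Q p q r ^ (s + 1)) := by
      intro f hf
      refine sat_sat d2 (sat_mul ?_)
      have := key hp hq hr (N := 20 * s) (f := f) (by convert hf using 2; ring)
      rw [mul_left_comm]
      generalize Δ ^ 2 * f = g at this
      refine Submodule.mul_induction_on (C := fun g => F * g ∈ Q p q r * sat (Q p q r ^ (s + 1)))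
        this (fun a ha b hb => ?_) fun a b ha hb => ?_
      · rw [mul_left_comm]
        exact Ideal.mul_mem_mul ha (h2 b hb)
      · rw [mul_add]
        exact add_mem ha hb
    refine ⟨fun f hf => sat_sat d2 (sat_mul (Ideal.mul_mono_right h1 ?_)), a2, sat_sat πΔ ?_⟩
    · exact key hp hq hr (N := 20 * s + 9) (by convert hf using 2; ring)
    · obtain ⟨H, hH, e⟩ := GmG p q r (p ^ (s + 1)) (q ^ (s + 1)) (r ^ (s + 1))
      have b1 := sat_mul (Ideal.mul_mem_mul (Submodule.mem_sup_left (Submodule.mem_sup_left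
        (Ideal.mem_span_singleton_self _)) : G p q r * X 0 ^ 7 ∈ Q p q r) h3)
      have b2 := a2 _ (W_mul hH (hm0.pow (10 * s + 14)).mem (by omega))
      simp only [← pow_succ'] at e
      have e2 : Δ * (G (p ^ (s + 1 + 1)) (q ^ (s + 1 + 1)) (r ^ (s + 1 + 1)) *
          X 0 ^ (10 * (s + 1) + 7)) = G p q r * X 0 ^ 7 * (G (p ^ (s + 1)) (q ^ (s + 1))
            (r ^ (s + 1)) * X 0 ^ (10 * s + 7)) - F * (H * X 0 ^ (10 * s + 14)) := by
        linear_combination (-X 0 ^ (10 * s + 14)) * e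
      rw [e2]
      exact sub_mem b1 b2

end Pool.Agent.Lech
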