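import Pool.Agent.H.MP_0d2d15_ag.B

set_option autoImplicit false

namespace Pool.Agent.Lech

open MvPolynomial Pool.Agent.PdFun

variable {k : Type} [Field k]

lemma Hm.cast {a b : ℕ} {f : SS k} (h : Hm a f) (e : a = b) : Hm b f := e ▸ h

/-- Evaluation at a point of the exceptional line. -/
noncomputable def e (η : SS k) : SS k →ₐ[k] SS k := aeval ![1, η, X 2 ^ 2, X 3 ^ 2]

lemma e_π (η f : SS k) : e η (π f) = expand 2 (π f) := by
  have : (e η).comp π = (expand 2).comp π := by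
    refine algHom_ext fun i => ?_
    fin_cases i <;> simp [e, π]
  exact congrArg (fun φ : SS k →ₐ[k] SS k => φ f) this

/-- The gluing condition. -/
def ok (p q r : k) (u : SS k) : Prop := e (X 2) u = C p * e 0 u ∧ e (X 3) u = C q * e 0 u ∧
  e (X 2 + X 3) u = C r * e 0 u

lemma ok.mul {p q r p' q' r' : k} {u v : SS k} (h : ok p q r u) (h' : ok p' q' r' v) :
    ok (p * p') (q * q') (r * r') (u * v) := by
  simp only [ok, map_mul, h.1, h.2.1, h.2.2, h'.1, h'.2.1, h'.2.2]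
  refine ⟨?_, ?_, ?_⟩ <;> ring

lemma ok_π (s : SS k) : ok 1 1 1 (π s) := by simp [ok, e_π]

/-- The upper bound ideal. -/
def D (p q r : k) (M : ℕ) : Ideal (SS k) where
  carrier := {f | ∃ g, τ f = Polynomial.X ^ M * g ∧ ok p q r (g.coeff 0)}
  zero_mem' := ⟨0, by simp, by simp [ok]⟩
  add_mem' := by
    rintro f f' ⟨g, h1, h2⟩ ⟨g', h3, h4⟩
    refine ⟨g + g', by rw [map_add, h1, h3, mul_add], ?_⟩
    simp only [ok, Polynomial.coeff_add, map_add (e _), h2.1, h2.2.1, h2.2.2, h4.1, h4.2.1,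
      h4.2.2, mul_add, and_self]
  smul_mem' := by
    rintro c f ⟨g, h1, h2⟩
    refine ⟨τ c * g, by rw [smul_eq_mul, map_mul, h1, mul_left_comm], ?_⟩
    rw [Polynomial.mul_coeff_zero, coeff0]
    simpa using (ok_π c).mul h2

variable {p q r : k}

lemma D_W {M : ℕ} {f : SS k} (h : f ∈ D p q r M) : f ∈ W k M := mem_W.2 ⟨_, h.choose_spec.1⟩

lemma D_mul {p' q' r' : k} {M N : ℕ} :
    D p q r M * D p' q' r' N ≤ D (p * p') (q * q') (r * r') (M + N) := by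
  refine Ideal.mul_le.2 ?_
  rintro f ⟨g, h1, h2⟩ f' ⟨g', h3, h4⟩
  exact ⟨g * g', by rw [map_mul, h1, h3]; ring, by rw [Polynomial.mul_coeff_zero]; exact h2.mul h4⟩

lemma D_sat {M : ℕ} {s f : SS k} (hs : π s ≠ 0) (h : s * f ∈ D p q r M) : f ∈ D p q r M := by
  obtain ⟨g', h1⟩ := mem_W.1 (W_sat hs (D_W h))
  obtain ⟨g, h2, h3⟩ := h
  refine ⟨g', h1, ?_⟩
  rw [map_mul, h1, mul_left_comm] at h2
  rw [← mul_left_cancel₀ (pow_ne_zero _ Polynomial.X_ne_zero) h2, Polynomial.mul_coeff_zero,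
    coeff0] at h3
  have h0 : expand 2 (π s) ≠ 0 := fun h => hs (expand_injective (n := 2) (by omega) (by rw [h, map_zero]))
  simp only [ok, map_mul, e_π] at h3
  exact ⟨mul_left_cancel₀ h0 (by rw [h3.1]; ring), mul_left_cancel₀ h0 (by rw [h3.2.1]; ring),
    mul_left_cancel₀ h0 (by rw [h3.2.2]; ring)⟩

lemma D_top {M : ℕ} {f : SS k} (h : f ∈ D p q r M) : ok p q r ((τ f).coeff M) := by
  obtain ⟨g, h1, h2⟩ := h
  rwa [h1, ← zero_add M, Polynomial.coeff_X_pow_mul', if_pos le_rfl, Nat.sub_self]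

lemma Hm.top {M : ℕ} {f : SS k} (h : Hm M f) : (τ f).coeff M = f := by
  rw [h, mul_comm, Polynomial.coeff_C_mul_X_pow, if_pos rfl]

variable [CharP k 2]

lemma Q_le : Q p q r ≤ D p q r 20 := by
  refine sup_le (sup_le ?_ (Ideal.mul_le.2 fun a ha w hw => ?_)) fun f hf => ?_
  · rw [Ideal.span_singleton_le_iff_mem]
    refine ⟨Polynomial.C (G p q r * X 0 ^ 7),
      ((hm_G p q r).mul (hm0.pow 7)).cast (b := 20) (by norm_num), ?_⟩
    have h : ∀ η, e η (G p q r * X 0 ^ 7) =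
        gG 1 (η ^ 2) (X 2 ^ 2) (X 3 ^ 2) (C p) (C q) (C r) := fun η => by simp [e, G, gG]
    simp only [ok, Polynomial.coeff_C_zero, h]
    exact ⟨ev1 two .., ev2 two .., ev3 two ..⟩
  · obtain ⟨c, rfl⟩ := Ideal.mem_span_singleton'.1 ha
    rw [mul_assoc]
    refine Ideal.mul_mem_left _ _ ?_
    obtain ⟨g, hg⟩ := mem_W.1 hw
    refine ⟨Polynomial.C F * g, by rw [map_mul, hm_F, hg]; ring, ?_⟩
    have h : ∀ η, e η (F : SS k) = gF 1 (η ^ 2) (X 2 ^ 2) (X 3 ^ 2) := fun η => by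
      simp [e, F, gF]
    simp [ok, h, gF, sq2 (two (k := k)), CharTwo.add_self_eq_zero]
  · obtain ⟨g, hg⟩ := mem_W.1 hf
    exact ⟨Polynomial.X * g, by rw [hg]; ring, by simp [ok]⟩

lemma upper (t : ℕ) : sat (Q p q r ^ t) ≤ D (p ^ t) (q ^ t) (r ^ t) (20 * t) := by
  have : Q p q r ^ t ≤ D (p ^ t) (q ^ t) (r ^ t) (20 * t) := by
    induction t with
    | zero => exact fun f _ => ⟨τ f, by simp, by simpa [coeff0] using ok_π f⟩
    | succ t ih =>
      simp only [pow_succ, mul_add, mul_one]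
      exact (Ideal.mul_mono ih Q_le).trans D_mul
  rintro f ⟨s, hs, h⟩
  exact D_sat hs (this h)

lemma ok_zero (ha : 1 + p + q + r ≠ 0) {n : ℕ} {a b c : SS k} (h : ok p q r (X 0 ^ n *
    (π a * X 0 ^ 2 + π b * X 0 * X 1 ^ 2 + π c * X 1 ^ 4))) : π a = 0 ∧ π b = 0 ∧ π c = 0 := by
  have h0 : ∀ η : SS k, e η (X 0) = 1 := fun η => by simp [e]
  have h1 : ∀ η : SS k, e η (X 1) = η := fun η => by simp [e]
  have inj : ∀ u : SS k, expand 2 u = 0 → u = 0 := fun u h =>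
    expand_injective (n := 2) (by omega) (by rw [h, map_zero])
  simp only [ok, map_mul, map_add, map_pow, h0, h1, e_π] at h
  obtain ⟨e1, e2, e3⟩ := h
  have a0 : expand 2 (π a) = 0 := by
    refine mul_left_cancel₀ (show (C (1 + p + q + r) : SS k) ≠ 0 from C_ne_zero.2 ha) ?_
    simp only [map_add, map_one]
    linear_combination -e1 - e2 - e3 + (2 * expand 2 (π a) + expand 2 (π b) *
      (X 2 ^ 2 + X 2 * X 3 + X 3 ^ 2) + expand 2 (π c) * (X 2 ^ 4 + 2 * X 2 ^ 3 * X 3 +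
        3 * X 2 ^ 2 * X 3 ^ 2 + 2 * X 2 * X 3 ^ 3 + X 3 ^ 4)) * two (k := k)
  rw [a0] at e1 e2
  have b1 : expand 2 (π b) + expand 2 (π c) * X 2 ^ 2 = 0 :=
    mul_left_cancel₀ (pow_ne_zero 2 (X_ne_zero 2)) (by linear_combination e1)
  have b2 : expand 2 (π b) + expand 2 (π c) * X 3 ^ 2 = 0 :=
    mul_left_cancel₀ (pow_ne_zero 2 (X_ne_zero 3)) (by linear_combination e2)
  have hne : (X 2 ^ 2 - X 3 ^ 2 : SS k) ≠ 0 := fun h => by
    simpa using congrArg (eval ![0, 0, 1, 0]) h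
  have c0 : expand 2 (π c) = 0 := mul_left_cancel₀ hne (by linear_combination b1 - b2)
  exact ⟨inj _ a0, inj _ (by simpa [c0] using b1), inj _ c0⟩

variable {s : ℕ} {I : Ideal (SS k)} (h1 : W k (20 * s + 21) ≤ I)
  (h2 : ∀ f ∈ W k (20 * s + 12), F * f ∈ I) (h3 : G p q r * X 0 ^ (10 * s + 7) ∈ I)
  (h4 : I ≤ D p q r (20 * (s + 1)))

omit [CharP k 2] in
include h1 h2 h3 in
lemma nf (ha : 1 + p + q + r ≠ 0) {f : SS k} (hf : f ∈ W k (20 * (s + 1))) : ∃ a b c : SS k,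
    f - X 0 ^ (10 * s + 8) * (π a * X 0 ^ 2 + π b * X 0 * X 1 ^ 2 + π c * X 1 ^ 4) ∈ I := by
  obtain ⟨a, ha', b, hb, rfl⟩ := redF (10 * s + 6) 0 f (by convert hf using 2; ring)
  obtain ⟨b1, hb1, b2, rfl⟩ := W_step (N := 4) hb
  obtain ⟨w, hw, e1⟩ : ∃ w ∈ W k 4, G p q r = C (1 + p + q + r) * X 1 ^ 6 + X 0 * w := by
    refine ⟨(2 * (X 2 + X 3) + C p * (X 2 + 2 * X 3) + C q * (2 * X 2 + X 3) + C r * (X 2 + X 3)) *
      X 1 ^ 4 + (X 2 * X 3 + (X 2 + X 3) ^ 2 + C p * (X 3 * (X 2 + X 3)) +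
        C q * (X 2 * (X 2 + X 3)) + C r * (X 2 * X 3)) * X 0 * X 1 ^ 2 +
          X 2 * X 3 * (X 2 + X 3) * X 0 ^ 2, Hm.mem ?_, ?_⟩
    · simp only [Hm, map_add, map_mul, map_pow, map_ofNat, τ0, τ1, τ2, τ3, τC]; ring
    · simp only [G, gG, map_add, map_one]; ring
  have e2 : (C (1 + p + q + r)⁻¹ * C (1 + p + q + r) : SS k) = 1 := by
    rw [← map_mul, inv_mul_cancel₀ ha, map_one]
  generalize (C (1 + p + q + r)⁻¹ : SS k) = v at e2
  obtain ⟨c1, hc1, c, e3⟩ := W_step (N := 2) (sub_mem hb1 (Ideal.mul_mem_left _ (v * b2) hw))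
  obtain ⟨a0, -, a1, rfl⟩ := W_step (N := 0) hc1
  refine ⟨a0, a1, c, ?_⟩
  have m := hm0.pow (k := k) (10 * s + 8)
  have m0 := h1 (W_mul (m.mul (hm0.pow 2)).mem (sub_π a0) (by omega))
  have m1 := h1 (W_mul (m.mul (hm0.mul (hm1.pow 2))).mem (sub_π a1) (by omega))
  have m2 := h1 (W_mul (m.mul (hm1.pow 4)).mem (sub_π c) (by omega))
  have m3 := h2 a (by convert ha' using 2; ring)
  have m4 := I.mul_mem_left (v * b2) h3
  have e4 := add_mem (add_mem (add_mem (add_mem m0 m1) m2) m3) m4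
  refine (congrArg (· ∈ I) ?_).mp e4
  rw [e1]
  linear_combination (-X 0 ^ (10 * s + 8)) * e3 + X 0 ^ (10 * s + 7) * b2 * X 1 ^ 6 * e2

include h1 h2 h3 h4 in
lemma reg2 (ha : 1 + p + q + r ≠ 0) (f : SS k) (h : f * X 3 ∈ I ⊔ Ideal.span {X 2}) :
    f ∈ I ⊔ Ideal.span {X 2} := by
  obtain ⟨g, hg, _, h5, h6⟩ := Submodule.mem_sup.1 h
  obtain ⟨u, rfl⟩ := Ideal.mem_span_singleton.1 h5
  obtain ⟨v, hv⟩ := sub_κ f
  have k2 : κ (X 2 : SS k) = 0 := by simp [κ]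
  have k3 : κ (X 3 : SS k) = X 3 := by simp [κ]
  have p2 : π (X 2 : SS k) = X 2 := by simp [π]
  have p3 : π (X 3 : SS k) = X 3 := by simp [π]
  have w1 : κ f ∈ W k (20 * (s + 1)) := by
    refine W_sat (s := X 3) (by rw [p3]; exact X_ne_zero _) ?_
    have := congrArg κ h6
    rw [map_add, map_mul, map_mul, k2, k3, zero_mul, add_zero] at this
    rw [mul_comm (X 3), ← this]
    exact W_κ (D_W (h4 hg))
  have e1 : X 2 * (u - v * X 3) = X 3 * κ f - g := by linear_combination h6 + X 3 * hv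
  have w2 : u - v * X 3 ∈ W k (20 * (s + 1)) := W_sat (s := X 2) (by rw [p2]; exact X_ne_zero _)
    (e1 ▸ sub_mem (Ideal.mul_mem_left _ _ w1) (D_W (h4 hg)))
  obtain ⟨a, b, c, m1⟩ := nf h1 h2 h3 ha w1
  obtain ⟨a', b', c', m2⟩ := nf h1 h2 h3 ha w2
  have m3 : X 0 ^ (10 * s + 8) * (π (X 3 * a - X 2 * a') * X 0 ^ 2 +
      π (X 3 * b - X 2 * b') * X 0 * X 1 ^ 2 + π (X 3 * c - X 2 * c') * X 1 ^ 4) ∈ I := by
    refine (congrArg (· ∈ I) ?_).mp (add_mem (sub_mem (I.mul_mem_left (X 2) m2)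
      (I.mul_mem_left (X 3) m1)) hg)
    simp only [map_sub, map_mul, p2, p3]
    linear_combination e1
  have m4 := D_top (h4 m3)
  have m5 : ∀ a b c : SS k, Hm (20 * (s + 1)) (X 0 ^ (10 * s + 8) *
      (π a * X 0 ^ 2 + π b * X 0 * X 1 ^ 2 + π c * X 1 ^ 4)) := fun a b c => by
    have t1 : Hm 4 (π a * X 0 ^ 2) := ((hm_π a).mul (hm0.pow 2)).cast (by norm_num)
    have t2 : Hm 4 (π b * X 0 * X 1 ^ 2) :=
      (((hm_π b).mul hm0).mul (hm1.pow 2)).cast (by norm_num)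
    have t3 : Hm 4 (π c * X 1 ^ 4) := ((hm_π c).mul (hm1.pow 4)).cast (by norm_num)
    rw [show 20 * (s + 1) = 2 * (10 * s + 8) + 4 by ring]
    exact (hm0.pow _).mul ((t1.add t2).add t3)
  rw [(m5 ..).top] at m4
  have dv : ∀ a a' : SS k, π (X 3 * a - X 2 * a') = 0 → X 2 ∣ π a := by
    intro a a' h
    have := congrArg κ h
    simp only [map_sub, map_mul, p2, p3, k2, k3, zero_mul, sub_zero, map_zero] at this
    simpa [(mul_eq_zero.1 this).resolve_left (X_ne_zero _)] using sub_κ (π a)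
  obtain ⟨d1, d2, d3⟩ := ok_zero ha m4
  refine Submodule.mem_sup.2 ⟨_, m1, X 0 ^ (10 * s + 8) * (π a * X 0 ^ 2 + π b * X 0 * X 1 ^ 2 +
    π c * X 1 ^ 4) + X 2 * v, Ideal.mem_span_singleton.2 (dvd_add (Dvd.dvd.mul_left (dvd_add
      (dvd_add ((dv _ _ d1).mul_right _) (((dv _ _ d2).mul_right _).mul_right _))
        ((dv _ _ d3).mul_right _)) _) (dvd_mul_right _ _)), by linear_combination -hv⟩

end Pool.Agent.Lech
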