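import Pool.Agent.H.MP_0d2d15_ag.C

set_option autoImplicit false

namespace Pool.Agent.Lech

open MvPolynomial Pool.Agent.PdFun Pool.Agent.Dep Pool.Agent.Nf

variable {k : Type} [Field k]

/-- Evaluation on lines. -/
noncomputable def ε (u v w : Polynomial k) : SS k →ₐ[k] Polynomial k := aeval ![1, u, v, w]

lemma line (f : SS k) (σ : Polynomial k) :
    σ ^ 2 ∣ ε σ (σ ^ 2) 0 f - ε σ (σ ^ 2) (σ ^ 2) f ∧ σ ^ 2 ∣ ε 0 (σ ^ 2) 0 f - ε 0 (σ ^ 2) (σ ^ 2) f ∧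
    σ ∣ ε σ (σ ^ 2) (σ ^ 2) f - ε 0 (σ ^ 2) (σ ^ 2) f ∧
    σ ^ 3 ∣ ε σ (σ ^ 2) 0 f - ε σ (σ ^ 2) (σ ^ 2) f - (ε 0 (σ ^ 2) 0 f - ε 0 (σ ^ 2) (σ ^ 2) f) := by
  induction f using MvPolynomial.induction_on with
  | C a => simp [ε]
  | add p q hp hq =>
    simp only [map_add]
    obtain ⟨⟨a, h1⟩, ⟨b, h2⟩, ⟨c, h3⟩, ⟨d, h4⟩⟩ := hp
    obtain ⟨⟨a', h5⟩, ⟨b', h6⟩, ⟨c', h7⟩, ⟨d', h8⟩⟩ := hq
    exact ⟨⟨a + a', by linear_combination h1 + h5⟩, ⟨b + b', by linear_combination h2 + h6⟩,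
      ⟨c + c', by linear_combination h3 + h7⟩, ⟨d + d', by linear_combination h4 + h8⟩⟩
  | mul_X p i hp =>
    simp only [map_mul]
    obtain ⟨⟨a, h1⟩, ⟨b, h2⟩, ⟨c, h3⟩, ⟨d, h4⟩⟩ := hp
    have x0 : ∀ u v w : Polynomial k, ε u v w (X 0) = 1 := fun u v w => by simp [ε]
    have x1 : ∀ u v w : Polynomial k, ε u v w (X 1) = u := fun u v w => by simp [ε]
    have x2 : ∀ u v w : Polynomial k, ε u v w (X 2) = v := fun u v w => by simp [ε]
    have x3 : ∀ u v w : Polynomial k, ε u v w (X 3) = w := fun u v w => by simp [ε]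
    generalize ε σ (σ ^ 2) 0 p = A at *
    generalize ε σ (σ ^ 2) (σ ^ 2) p = B at *
    generalize ε 0 (σ ^ 2) 0 p = C at *
    generalize ε 0 (σ ^ 2) (σ ^ 2) p = E at *
    obtain rfl | rfl | rfl | rfl : i = 0 ∨ i = 1 ∨ i = 2 ∨ i = 3 := by omega
    · simp only [x0]
      exact ⟨⟨a, by linear_combination h1⟩, ⟨b, by linear_combination h2⟩,
        ⟨c, by linear_combination h3⟩, ⟨d, by linear_combination h4⟩⟩
    · simp only [x1]
      exact ⟨⟨a * σ, by linear_combination σ * h1⟩, ⟨0, by ring⟩, ⟨B, by ring⟩,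
        ⟨a, by linear_combination σ * h1⟩⟩
    · simp only [x2]
      exact ⟨⟨A - B, by ring⟩, ⟨C - E, by ring⟩, ⟨(B - E) * σ, by ring⟩,
        ⟨d * σ ^ 2, by linear_combination σ ^ 2 * h4⟩⟩
    · simp only [x3]
      exact ⟨⟨-B, by ring⟩, ⟨-E, by ring⟩, ⟨(B - E) * σ, by ring⟩,
        ⟨-c, by linear_combination -σ ^ 2 * h3⟩⟩

variable [CharP k 2] {p q r : k}

lemma not_ok (hq : q ≠ 1) (hr : r ≠ 1) {n : ℕ} {u : SS k} :
    ¬ ok p q r (X 0 ^ n * (X 0 * X 1 ^ 2 * (X 1 ^ 2 + X 3 * X 0)) - X 2 * u) := by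
  rintro ⟨h1, h2, h3⟩
  set v := X 0 ^ n * (X 0 * X 1 ^ 2 * (X 1 ^ 2 + X 3 * X 0)) - X 2 * u with hv
  let σ : Polynomial k := Polynomial.X
  have hσ : σ ^ 2 ≠ 0 := pow_ne_zero 2 Polynomial.X_ne_zero
  have c : ∀ (w : Polynomial k) (η : SS k), aeval ![0, 0, σ, w] (e η v) =
      ε (aeval ![0, 0, σ, w] η) (σ ^ 2) (w ^ 2) v := by
    intro w η
    have : (aeval ![0, 0, σ, w]).comp (e η) = ε (aeval ![0, 0, σ, w] η) (σ ^ 2) (w ^ 2) := by
      refine algHom_ext fun i => ?_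
      fin_cases i <;> simp [e, ε]
    exact congrArg (fun φ : SS k →ₐ[k] Polynomial k => φ v) this
  have z : ∀ (c : k) (y : Polynomial k), c ≠ 1 → y = Polynomial.C c * y → y = 0 := by
    intro c y hc h
    have : Polynomial.C (1 - c) ≠ 0 := Polynomial.C_ne_zero.2 (sub_ne_zero.2 hc.symm)
    exact mul_left_cancel₀ this (by rw [map_sub, map_one]; linear_combination h)
  have b0 : ε 0 (σ ^ 2) 0 v = 0 := z q _ hq (by
    simpa [c] using congrArg (aeval ![0, 0, σ, 0]) h2)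
  have b1 : ε σ (σ ^ 2) 0 v = 0 := by
    simpa [c, b0] using congrArg (aeval ![0, 0, σ, 0]) h1
  have c0 : ε 0 (σ ^ 2) (σ ^ 2) v = 0 := z r _ hr (by
    simpa [c, CharTwo.add_self_eq_zero] using congrArg (aeval ![0, 0, σ, σ]) h3)
  have c1 : ε σ (σ ^ 2) (σ ^ 2) v = 0 := by
    simpa [c, c0] using congrArg (aeval ![0, 0, σ, σ]) h1
  have w : ∀ a b c : Polynomial k, ε a b c v = a ^ 2 * (a ^ 2 + c) - b * ε a b c u := by
    intro a b c
    simp [hv, ε]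
  rw [w] at b0 b1 c0 c1
  obtain ⟨d, hd⟩ := (line u σ).2.2.2
  have t2 : (2 : Polynomial k) = 0 := CharTwo.two_eq_zero
  have : σ ^ 2 * σ ^ 2 * (1 - σ * d) = 0 := by
    linear_combination σ ^ 2 * hd + b1 - c1 - b0 + c0 + σ ^ 4 * t2
  have := (mul_eq_zero.1 this).resolve_left (mul_ne_zero hσ hσ)
  simpa [σ] using congrArg (Polynomial.eval 0) this

variable {s : ℕ} {I : Ideal (SS k)} (h1 : W k (20 * s + 21) ≤ I)
  (h2 : ∀ f ∈ W k (20 * s + 12), F * f ∈ I) (h3 : G p q r * X 0 ^ (10 * s + 7) ∈ I)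
  (h4 : I ≤ D p q r (20 * (s + 1))) (h5 : ∀ u f, π u ≠ 0 → u * f ∈ I → f ∈ I)

omit [CharP k 2] in
include h5 in
lemma reg1 (c : SS k) (h : c * X 2 ∈ I) : c ∈ I :=
  h5 (X 2) c (by simp [π]) (by rwa [mul_comm])

include h1 h2 h3 h4 h5 in
lemma generic (ha : 1 + p + q + r ≠ 0) : DP (mm k 4) (SS k ⧸ I) 2 :=
  dq_up _ _ (reg1 h5) (Ideal.subset_span (Set.mem_range_self 2)) (dq_up _ _ (reg2 h1 h2 h3 h4 ha)
    (Ideal.subset_span (Set.mem_range_self 3)) fun i hi => by omega)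

include h1 h3 h4 h5 in
lemma special (ha : 1 + p + q + r = 0) (hp : p ≠ 1) (hq : q ≠ 1) (hr : r ≠ 1) :
    DP (mm k 4) (SS k ⧸ I) 1 ∧ ¬ DP (mm k 4) (SS k ⧸ I) 2 := by
  refine ⟨dq_up _ _ (reg1 h5) (Ideal.subset_span (Set.mem_range_self 2)) fun i hi => by omega, fun h => ?_⟩
  have hm : Hm (20 * (s + 1))
      (X 0 ^ (10 * s + 7) * (X 0 * X 1 ^ 2 * (X 1 ^ 2 + X 3 * X 0)) : SS k) :=
    ((hm0.pow _).mul ((hm0.mul (hm1.pow 2)).mul (((hm1.pow 2).cast (b := 2) (by norm_num)).add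
      ((hm3.mul hm0).cast (by norm_num))))).cast (by ring)
  set m : SS k := X 0 ^ (10 * s + 7) * (X 0 * X 1 ^ 2 * (X 1 ^ 2 + X 3 * X 0)) with hmm
  have h6 := dq_socle (dq_down _ _ (reg1 h5) h) m fun v hv => by
    refine (show mm k 4 ≤ Submodule.comap (LinearMap.mulRight (SS k) m) (I ⊔ Ideal.span {X 2}) from
      Ideal.span_le.2 ?_) hv
    rintro _ ⟨i, rfl⟩
    change X i * m ∈ I ⊔ Ideal.span {X 2}
    obtain rfl | rfl | rfl | rfl : i = 0 ∨ i = 1 ∨ i = 2 ∨ i = 3 := by omega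
    · exact Submodule.mem_sup_left (h1 (W_mul hm0.mem hm.mem (by omega)))
    · exact Submodule.mem_sup_left (h1 (W_mul hm1.mem hm.mem (by omega)))
    · exact Submodule.mem_sup_right (Ideal.mem_span_singleton.2 (dvd_mul_right _ _))
    · obtain ⟨u, hu⟩ := sub_κ (G p q r)
      have e1 : κ (G p q r) = X 3 * (1 + C p) * (X 0 * X 1 ^ 2 * (X 1 ^ 2 + X 3 * X 0)) +
          (1 + C p + C q + C r) * (X 1 ^ 4 * (X 1 ^ 2 + X 3 * X 0)) := by
        simp [κ, G, gG]; ring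
      have e2 : (1 + C p + C q + C r : SS k) = 0 := by simpa using congrArg (C : k → SS k) ha
      have e3 : (C (1 + p)⁻¹ * (1 + C p) : SS k) = 1 := by
        rw [← map_one C, ← map_add, ← map_mul, inv_mul_cancel₀ fun h => hp ?_]
        exact (CharTwo.add_eq_zero.1 h).symm
      refine Submodule.mem_sup.2 ⟨_, I.mul_mem_left (C (1 + p)⁻¹) h3,
        X 2 * (-C (1 + p)⁻¹ * u * X 0 ^ (10 * s + 7)),
        Ideal.mem_span_singleton.2 (dvd_mul_right _ _), ?_⟩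
      rw [e1, e2] at hu
      rw [hmm]
      linear_combination C (1 + p)⁻¹ * X 0 ^ (10 * s + 7) * hu + X 3 * X 0 ^ (10 * s + 7) *
        (X 0 * X 1 ^ 2 * (X 1 ^ 2 + X 3 * X 0)) * e3
  obtain ⟨g, hg, _, h7, h8⟩ := Submodule.mem_sup.1 h6
  obtain ⟨u, rfl⟩ := Ideal.mem_span_singleton.1 h7
  have h9 := D_top (h4 hg)
  rw [← eq_sub_iff_add_eq] at h8
  rw [h8, map_sub, Polynomial.coeff_sub, hm.top, map_mul, τ2, pow_zero, one_mul,
    Polynomial.coeff_C_mul] at h9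
  exact not_ok hq hr h9

lemma minP : (Q p q r).minimalPrimes = {RingHom.ker (π (k := k)).toRingHom} := by
  have hp : (RingHom.ker (π (k := k)).toRingHom).IsPrime := RingHom.ker_isPrime _
  have h1 : Q p q r ≤ RingHom.ker (π (k := k)).toRingHom := fun f hf =>
    mem_W1.1 (by simpa using W_mul (D_W (Q_le hf)) (hm_C 1).mem (by omega))
  have h2 : ∀ P : Ideal (SS k), P.IsPrime → Q p q r ≤ P →
      RingHom.ker (π (k := k)).toRingHom ≤ P := by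
    intro P hP h f hf
    exact hP.mem_of_pow_mem 21 (h (Submodule.mem_sup_right (mem_W.2 (by
      rw [map_pow]
      exact pow_dvd_pow_of_dvd (by simpa using mem_W.1 (mem_W1.2 hf)) 21))))
  ext P
  constructor
  · intro h
    exact le_antisymm (h.2 ⟨hp, h1⟩ (h2 P h.1.1 h.1.2)) (h2 P h.1.1 h.1.2)
  · rintro rfl
    exact ⟨⟨hp, h1⟩, fun P hP _ => h2 P hP.1 hP.2⟩

omit [CharP k 2] in
attribute [local instance] MvPolynomial.gradedAlgebra in
lemma Q_hom (f : SS k) (hf : f ∈ Q p q r) (d : ℕ) : homogeneousComponent d f ∈ Q p q r := by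
  have hW : ∀ N, (W k N).IsHomogeneous (homogeneousSubmodule (Fin 4) k) := fun N =>
    Ideal.homogeneous_span _ _ (by
      rintro _ ⟨m, -, rfl⟩
      exact ⟨_, isHomogeneous_monomial _ rfl⟩)
  have x := fun i => isHomogeneous_X k (i : Fin 4)
  have l0 : IsHomogeneous (X 1 ^ 2 : SS k) 2 := (x 1).pow 2
  have l1 : IsHomogeneous (X 1 ^ 2 + X 2 * X 0 : SS k) 2 := l0.add ((x 2).mul (x 0))
  have l2 : IsHomogeneous (X 1 ^ 2 + X 3 * X 0 : SS k) 2 := l0.add ((x 3).mul (x 0))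
  have l3 : IsHomogeneous (X 1 ^ 2 + (X 2 + X 3) * X 0 : SS k) 2 :=
    l0.add (((x 2).add (x 3)).mul (x 0))
  have hG : IsHomogeneous (G p q r) 6 := ((((l1.mul l2).mul l3).add (((l0.mul l2).mul l3).C_mul p)).add
    (((l0.mul l1).mul l3).C_mul q)).add (((l0.mul l1).mul l2).C_mul r)
  have hF : IsHomogeneous (F : SS k) 8 := ((l0.mul l1).mul l2).mul l3
  have h : (Q p q r).IsHomogeneous (homogeneousSubmodule (Fin 4) k) :=
    ((Ideal.homogeneous_span _ _ (by rintro _ rfl; exact ⟨_, hG.mul ((x 0).pow 7)⟩)).sup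
      ((Ideal.homogeneous_span _ _ (by rintro _ rfl; exact ⟨_, hF⟩)).mul (hW 12))).sup (hW 21)
  rw [← decomposition.decompose'_apply]
  exact h d hf

end Pool.Agent.Lech
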